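import Mathlib

/-!
# Graphs with a prescribed number of irreducible FAT colorings

The graph `G n` has `2 ^ n` vertices: `G (n + 1)` is the join of two copies of the complement of
`G n`.  Its FAT colorings with more than one class are exactly the `2`-colorings whose classes are
given by a function `x ↦ x_j + g (x_0, ..., x_(j-1))`, and two of them are equivalent under the
automorphism group exactly when they belong to the same level `j`.
-/

namespace Pool.Agent.Results.MP_48b99b_co.PrescribedNumber

/-- The number of neighbours of `v` that lie in `S`. -/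
noncomputable def e {V : Type} (G : SimpleGraph V) (v : V) (S : Set V) : ℕ :=
  Set.ncard (G.neighborSet v ∩ S)

/-- The partition of the vertex set into the classes of `s` is a FAT coloring. -/
def IsFAT {V : Type} (G : SimpleGraph V) (s : Setoid V) : Prop :=
  ∃ α : ℝ, 0 ≤ α ∧ α ≤ 1 ∧
    (∀ v w, ¬ s v w → (e G v {u | s u w} : ℝ) = α * (G.neighborSet v).ncard) ∧
    (∀ v, (e G v {u | s u v} : ℝ)
      = (1 - ((Nat.card (Quotient s) : ℝ) - 1) * α) * (G.neighborSet v).ncard)

/-- FAT colorings that are not refined by any other FAT coloring. -/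
def IsIrreducible {V : Type} (G : SimpleGraph V) (s : Setoid V) : Prop :=
  IsFAT G s ∧ ∀ t, IsFAT G t → (∀ x y, t x y → s x y) → ∀ x y, s x y → t x y

/-- Some automorphism of `G` maps the partition `s` onto the partition `t`. -/
def Equivalent {V : Type} (G : SimpleGraph V) (s t : Setoid V) : Prop :=
  ∃ φ : G ≃g G, ∀ x y, s x y ↔ t (φ x) (φ y)

/-- `G` has exactly `b` irreducible FAT colorings up to automorphisms. -/
def HasExactly {V : Type} (G : SimpleGraph V) (b : ℕ) : Prop :=
  ∃ P : Fin b → Setoid V, (∀ i, IsIrreducible G (P i)) ∧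
    (∀ i j, Equivalent G (P i) (P j) → i = j) ∧
    ∀ s, IsIrreducible G s → ∃ i, Equivalent G s (P i)

/-! ### The graphs -/

/-- The vertex sets. -/
def V : ℕ → Type
  | 0 => Unit
  | n + 1 => Bool × V n

instance instFintypeV : ∀ n, Fintype (V n)
  | 0 => inferInstanceAs (Fintype Unit)
  | n + 1 =>
    letI := instFintypeV n
    inferInstanceAs (Fintype (Bool × V n))

/-- The graphs: `G (n + 1)` is the join of two copies of the complement of `G n`. -/
def G : (n : ℕ) → SimpleGraph (V n)
  | 0 => ⊥
  | n + 1 =>
    { Adj := fun u v : Bool × V n =>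
        u.1 ≠ v.1 ∨ (u.1 = v.1 ∧ u.2 ≠ v.2 ∧ ¬ (G n).Adj u.2 v.2)
      symm := ⟨by
        rintro u v (h | ⟨h1, h2, h3⟩)
        · exact Or.inl h.symm
        · exact Or.inr ⟨h1.symm, h2.symm, fun h => h3 h.symm⟩⟩
      loopless := ⟨by
        rintro u (h | ⟨-, h, -⟩)
        · exact h rfl
        · exact h rfl⟩ }

lemma adj_succ (n : ℕ) (b c : Bool) (x y : V n) :
    (G (n + 1)).Adj (b, x) (c, y) ↔ b ≠ c ∨ (b = c ∧ x ≠ y ∧ ¬ (G n).Adj x y) := Iff.rfl

open Classical in
/-- The adjacency operator. -/
noncomputable def A (n : ℕ) (f : V n → ℝ) (x : V n) : ℝ :=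
  ∑ y, if (G n).Adj x y then f y else 0

lemma sum_succ (n : ℕ) (f : V (n + 1) → ℝ) :
    ∑ y, f y = ∑ y : V n, f (true, y) + ∑ y : V n, f (false, y) := by
  exact (Fintype.sum_prod_type (f := (f : Bool × V n → ℝ))).trans (Fintype.sum_bool _)

lemma A_succ (n : ℕ) (f : V (n + 1) → ℝ) (b : Bool) (x : V n) :
    A (n + 1) f (b, x) = ∑ y, f y - f (b, x) - A n (fun y => f (b, y)) x := by
  classical
  have hdiff : ∀ c, b ≠ c → ∑ y : V n, (if (G (n + 1)).Adj (b, x) (c, y) then f (c, y) else 0)
      = ∑ y : V n, f (c, y) := by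
    intro c hc
    apply Finset.sum_congr rfl
    intro y _
    rw [if_pos ((adj_succ n b c x y).2 (Or.inl hc))]
  have hsame : ∑ y : V n, (if (G (n + 1)).Adj (b, x) (b, y) then f (b, y) else 0)
      = ∑ y : V n, f (b, y) - f (b, x) - A n (fun y => f (b, y)) x := by
    have h1 : ∀ y : V n, (if (G (n + 1)).Adj (b, x) (b, y) then f (b, y) else 0)
        = f (b, y) - (if y = x then f (b, x) else 0)
          - (if (G n).Adj x y then f (b, y) else 0) := by
      intro y
      by_cases hy : y = x
      · subst hy
        have h2 : ¬ (G (n + 1)).Adj (b, y) (b, y) := (G (n + 1)).loopless.irrefl _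
        simp [h2]
      · by_cases hxy : (G n).Adj x y
        · have h2 : ¬ (G (n + 1)).Adj (b, x) (b, y) := by
            rw [adj_succ]
            simp [hxy]
          simp [h2, hxy, hy]
        · have h2 : (G (n + 1)).Adj (b, x) (b, y) := by
            rw [adj_succ]
            exact Or.inr ⟨rfl, fun h => hy h.symm, hxy⟩
          simp [h2, hxy, hy]
    simp only [h1]
    rw [Finset.sum_sub_distrib, Finset.sum_sub_distrib, Finset.sum_ite_eq']
    simp [A]
  unfold A
  rw [sum_succ, sum_succ n f]
  cases b
  · rw [hdiff true (by simp), hsame]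
    simp only [A]
    ring
  · rw [hdiff false (by simp), hsame]
    simp only [A]
    ring

/-- The indicator value of a Boolean. -/
noncomputable def ind (b : Bool) : ℝ := if b then 1 else 0

lemma ind_true : ind true = 1 := by simp [ind]
lemma ind_false : ind false = 0 := by simp [ind]

/-- The functions of level `j`. -/
def Lev : (n j : ℕ) → (V n → Bool) → Prop
  | 0, _, _ => False
  | _ + 1, 0, f => ∃ c : Bool, ∀ b x, f (b, x) = xor b c
  | n + 1, j + 1, f => ∀ b, Lev n j (fun x => f (b, x))

/-- The degree of `G n`. -/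
noncomputable def d : ℕ → ℝ
  | 0 => 0
  | n + 1 => 2 ^ (n + 1) - 1 - d n

/-- The eigenvalue of level `j`. -/
noncomputable def mu : (n j : ℕ) → ℝ
  | 0, _ => 0
  | n + 1, 0 => -1 - d n
  | n + 1, j + 1 => -1 - mu n j

/-- The constant of level `j`. -/
noncomputable def aa : (n j : ℕ) → ℝ
  | 0, _ => 0
  | n + 1, 0 => 2 ^ n
  | n + 1, j + 1 => 2 ^ n - aa n j

lemma card_V (n : ℕ) : ∑ _y : V n, (1 : ℝ) = 2 ^ n := by
  induction n with
  | zero =>
    have : Fintype.card (V 0) = 1 := rfl
    simp [this]
  | succ n ih =>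
    rw [sum_succ, ih]
    ring

lemma A_one (n : ℕ) (x : V n) : A n (fun _ => 1) x = d n := by
  induction n with
  | zero => simp [A, G, d]
  | succ n ih =>
    obtain ⟨b, x⟩ := x
    rw [A_succ, card_V, ih]
    rfl

lemma A_const (n : ℕ) (c : ℝ) (x : V n) : A n (fun _ => c) x = d n * c := by
  classical
  rw [← A_one n x, A, A, Finset.sum_mul]
  apply Finset.sum_congr rfl
  intro y _
  split_ifs <;> ring

lemma d_bounds (n : ℕ) : 0 ≤ d n ∧ d n ≤ 2 ^ n - 1 := by
  induction n with
  | zero => simp [d]
  | succ n ih =>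
    have h : (1 : ℝ) ≤ 2 ^ n := one_le_pow₀ (by norm_num)
    rw [d, pow_succ]
    constructor <;> linarith [ih.1, ih.2]

lemma d_pos (n : ℕ) : (2 : ℝ) ^ n ≤ d (n + 1) := by
  rw [d, pow_succ]
  linarith [(d_bounds n).2]

lemma mu_bounds (n : ℕ) : ∀ j, j < n → mu n j < d n ∧ -d n ≤ mu n j := by
  induction n with
  | zero => intro j hj; omega
  | succ n ih =>
    intro j hj
    have h1 := d_pos n
    have h2 := d_bounds n
    cases j with
    | zero =>
      rw [mu]
      constructor <;> linarith
    | succ j =>
      rw [mu]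
      have h3 := ih j (by omega)
      constructor <;> linarith

lemma mu_inj (n : ℕ) : ∀ i j, i < n → j < n → mu n i = mu n j → i = j := by
  induction n with
  | zero => intro i j hi; omega
  | succ n ih =>
    intro i j hi hj h
    cases i with
    | zero =>
      cases j with
      | zero => rfl
      | succ j =>
        rw [mu, mu] at h
        have := (mu_bounds n j (by omega)).1
        linarith
    | succ i =>
      cases j with
      | zero =>
        rw [mu, mu] at h
        have := (mu_bounds n i (by omega)).1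
        linarith
      | succ j =>
        rw [mu, mu] at h
        rw [ih i j (by omega) (by omega) (by linarith)]

lemma two_aa (n : ℕ) : ∀ j, j < n → 2 * aa n j + mu n j = d n := by
  induction n with
  | zero => intro j hj; omega
  | succ n ih =>
    intro j hj
    cases j with
    | zero =>
      rw [mu, aa, d, pow_succ]
      ring
    | succ j =>
      rw [mu, aa, d, pow_succ]
      linarith [ih j (by omega)]

lemma lev_lt (n : ℕ) : ∀ j f, Lev n j f → j < n := by
  induction n with
  | zero => intro j f h; exact h.elim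
  | succ n ih =>
    intro j f h
    cases j with
    | zero => omega
    | succ j =>
      have := ih j _ (h true)
      omega

lemma lev_not (n : ℕ) : ∀ j f, Lev n j f → Lev n j (fun x => !f x) := by
  induction n with
  | zero => intro j f h; exact h.elim
  | succ n ih =>
    intro j f h
    cases j with
    | zero =>
      obtain ⟨c, hc⟩ := h
      refine ⟨!c, ?_⟩
      intro b x
      simp [hc]
    | succ j =>
      intro b
      exact ih j _ (h b)

lemma nonempty_V (n : ℕ) : Nonempty (V n) := by
  induction n with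
  | zero => exact ⟨()⟩
  | succ n ih =>
    obtain ⟨x⟩ := ih
    exact ⟨(true, x)⟩

lemma lev_vals (n : ℕ) : ∀ j f, Lev n j f → (∃ x, f x = true) ∧ ∃ x, f x = false := by
  induction n with
  | zero => intro j f h; exact h.elim
  | succ n ih =>
    intro j f h
    cases j with
    | zero =>
      obtain ⟨c, hc⟩ := h
      obtain ⟨x⟩ := nonempty_V n
      exact ⟨⟨(!c, x), by simp [hc]⟩, ⟨(c, x), by simp [hc]⟩⟩
    | succ j =>
      obtain ⟨⟨x, hx⟩, ⟨y, hy⟩⟩ := ih j _ (h true)
      exact ⟨⟨(true, x), hx⟩, ⟨(true, y), hy⟩⟩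

lemma sum_lev (n : ℕ) : ∀ j f, Lev n j f → ∑ x, ind (f x) = 2 ^ n / 2 := by
  induction n with
  | zero => intro j f h; exact h.elim
  | succ n ih =>
    intro j f h
    rw [sum_succ]
    cases j with
    | zero =>
      obtain ⟨c, hc⟩ := h
      simp only [hc]
      rw [← Finset.sum_add_distrib]
      have : ∀ x : V n, ind (xor true c) + ind (xor false c) = 1 := by
        intro x
        cases c <;> simp [ind]
      rw [Finset.sum_congr rfl (fun x _ => this x), card_V, pow_succ]
      ring
    | succ j =>
      have h1 := ih j _ (h true)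
      have h2 := ih j _ (h false)
      rw [pow_succ]
      linarith

lemma A_lev (n : ℕ) : ∀ j f, Lev n j f → ∀ x,
    A n (fun y => ind (f y)) x = aa n j + mu n j * ind (f x) := by
  induction n with
  | zero => intro j f h; exact h.elim
  | succ n ih =>
    intro j f h x
    have hsum := sum_lev (n + 1) j f h
    obtain ⟨b, x⟩ := x
    rw [A_succ, hsum, pow_succ]
    cases j with
    | zero =>
      obtain ⟨c, hc⟩ := h
      simp only [hc]
      rw [A_const, aa, mu]
      ring
    | succ j =>
      rw [ih j _ (h b), aa, mu]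
      ring

lemma coeff_unique {n : ℕ} {f : V n → Bool} (h1 : ∃ x, f x = true) (h2 : ∃ x, f x = false)
    {a μ a' μ' : ℝ} (h : ∀ x, a + μ * ind (f x) = a' + μ' * ind (f x)) : a = a' ∧ μ = μ' := by
  obtain ⟨x, hx⟩ := h1
  obtain ⟨y, hy⟩ := h2
  have hx' := h x
  have hy' := h y
  rw [hx, ind_true] at hx'
  rw [hy, ind_false] at hy'
  constructor <;> linarith

lemma classify (n : ℕ) : ∀ (f : V n → Bool) (a μ : ℝ),
    (∀ x, A n (fun y => ind (f y)) x = a + μ * ind (f x)) →
      (∃ c, ∀ x, f x = c) ∨ ∃ j, Lev n j f ∧ μ = mu n j := by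
  induction n with
  | zero =>
    intro f a μ h
    exact Or.inl ⟨f (), fun x => rfl⟩
  | succ n ih =>
    intro f a μ h
    set T : ℝ := ∑ y, ind (f y) with hT
    have hb : ∀ b x, A n (fun y => ind (f (b, y))) x
        = (T - a) + (-1 - μ) * ind (f (b, x)) := by
      intro b x
      have h1 := h (b, x)
      rw [A_succ] at h1
      linarith
    have key : ∀ (b b' : Bool) (c : Bool) (j : ℕ), (∀ x, f (b', x) = c) →
        Lev n j (fun x => f (b, x)) → False := by
      intro b b' c j hc hj
      obtain ⟨hv1, hv2⟩ := lev_vals n j _ hj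
      have h1 := coeff_unique (f := fun x => f (b, x)) hv1 hv2
        (a := T - a) (μ := -1 - μ) (a' := aa n j) (μ' := mu n j) (by
          intro x
          rw [← hb b x, A_lev n j _ hj x])
      obtain ⟨x⟩ := nonempty_V n
      have h2 := hb b' x
      simp only [hc] at h2
      rw [A_const, h1.1, h1.2] at h2
      have h3 := two_aa n j (lev_lt n j _ hj)
      have h4 := (mu_bounds n j (lev_lt n j _ hj)).1
      cases c
      · rw [ind_false] at h2
        linarith
      · rw [ind_true] at h2
        linarith
    rcases ih _ _ _ (hb true) with ⟨c1, hc1⟩ | ⟨j1, hj1, hm1⟩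
    · rcases ih _ _ _ (hb false) with ⟨c0, hc0⟩ | ⟨j0, hj0, hm0⟩
      · by_cases hcc : c1 = c0
        · left
          refine ⟨c0, ?_⟩
          rintro ⟨b, x⟩
          cases b
          · exact hc0 x
          · rw [← hcc]; exact hc1 x
        · right
          have hl : Lev (n + 1) 0 f := by
            refine ⟨c0, ?_⟩
            intro b x
            cases b
            · rw [hc0 x]; simp
            · rw [hc1 x]
              cases c0 <;> cases c1 <;> simp_all
          refine ⟨0, hl, ?_⟩
          obtain ⟨hv1, hv2⟩ := lev_vals (n + 1) 0 _ hl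
          exact (coeff_unique hv1 hv2 (fun x => by
            rw [← h x, A_lev (n + 1) 0 f hl x])).2
      · exact (key false true c1 j0 hc1 hj0).elim
    · rcases ih _ _ _ (hb false) with ⟨c0, hc0⟩ | ⟨j0, hj0, hm0⟩
      · exact (key true false c0 j1 hc0 hj1).elim
      · right
        have hjj : j1 = j0 := mu_inj n j1 j0 (lev_lt n _ _ hj1) (lev_lt n _ _ hj0)
          (hm1.symm.trans hm0)
        subst hjj
        refine ⟨j1 + 1, ?_, ?_⟩
        · intro b
          cases b
          · exact hj0
          · exact hj1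
        · rw [mu]
          linarith

/-! ### From partitions to functions -/

open Classical in
lemma e_eq (n : ℕ) (v : V n) (p : V n → Prop) :
    (e (G n) v {u | p u} : ℝ) = A n (fun u => ind (decide (p u))) v := by
  have h1 : (G n).neighborSet v ∩ {u | p u}
      = ((Finset.univ.filter fun u => (G n).Adj v u ∧ p u : Finset (V n)) : Set (V n)) := by
    ext u
    simp
  rw [e, h1, Set.ncard_coe_finset, Finset.card_filter, A]
  push_cast
  apply Finset.sum_congr rfl
  intro u _
  by_cases h2 : (G n).Adj v u <;> by_cases h3 : p u <;> simp [h2, h3, ind]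

lemma degree_eq (n : ℕ) (v : V n) : (((G n).neighborSet v).ncard : ℝ) = d n := by
  have h := e_eq n v (fun _ => True)
  have h1 : ((G n).neighborSet v ∩ {u | True}) = (G n).neighborSet v := by
    ext u
    simp
  rw [e, h1] at h
  rw [h, ← A_one n v]
  simp [ind]

open Classical in
/-- In a FAT coloring with at least two classes all classes have the same level. -/
lemma fat_level (n : ℕ) (t : Setoid (V n)) (ht : IsFAT (G n) t) {x₀ y₀ : V n}
    (hxy : ¬ t x₀ y₀) : ∃ j, ∀ w, Lev n j (fun u => decide (t u w)) := by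
  obtain ⟨α, -, -, h1, h2⟩ := ht
  set β : ℝ := 1 - ((Nat.card (Quotient t) : ℝ) - 1) * α with hβ
  have hw : ∀ w, ∃ j, Lev n j (fun u => decide (t u w)) ∧ (β - α) * d n = mu n j := by
    intro w
    have hc := classify n (fun u => decide (t u w)) (α * d n) ((β - α) * d n) (by
      intro v
      rw [← e_eq n v (fun u => t u w)]
      by_cases hvw : t v w
      · have h3 : {u | t u w} = {u | t u v} := by
          ext u
          exact ⟨fun h => t.trans h (t.symm hvw), fun h => t.trans h hvw⟩
        rw [h3, h2 v, degree_eq]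
        simp only [hvw, decide_true, ind_true]
        ring
      · rw [h1 v w hvw, degree_eq]
        simp only [hvw, decide_false, ind_false]
        ring)
    rcases hc with ⟨c, hc⟩ | hc
    · exfalso
      have hw : c = true := by
        rw [← hc w]
        simp
      have h3 : t x₀ w := by
        have := hc x₀
        rw [hw] at this
        simpa using this
      have h4 : t y₀ w := by
        have := hc y₀
        rw [hw] at this
        simpa using this
      exact hxy (t.trans h3 (t.symm h4))
    · exact hc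
  obtain ⟨j, hj, hjm⟩ := hw x₀
  refine ⟨j, ?_⟩
  intro w
  obtain ⟨i, hi, him⟩ := hw w
  have : i = j := mu_inj n i j (lev_lt n _ _ hi) (lev_lt n _ _ hj) (him.symm.trans hjm)
  rw [← this]
  exact hi

/-- A FAT coloring does not have three classes. -/
lemma no_three (n : ℕ) (t : Setoid (V n)) (ht : IsFAT (G n) t) (x y z : V n)
    (hxy : ¬ t x y) (hxz : ¬ t x z) (hyz : ¬ t y z) : False := by
  classical
  obtain ⟨j, hj⟩ := fat_level n t ht hxy
  have hx := sum_lev n j _ (hj x)
  have hy := sum_lev n j _ (hj y)
  have hz := sum_lev n j _ (hj z)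
  have hle : ∑ u : V n, (ind (decide (t u x)) + ind (decide (t u y)) + ind (decide (t u z)))
      ≤ ∑ _u : V n, (1 : ℝ) := by
    apply Finset.sum_le_sum
    intro u _
    by_cases h1 : t u x
    · have h2 : ¬ t u y := fun h => hxy (t.trans (t.symm h1) h)
      have h3 : ¬ t u z := fun h => hxz (t.trans (t.symm h1) h)
      simp [h1, h2, h3, ind]
    · by_cases h2 : t u y
      · have h3 : ¬ t u z := fun h => hyz (t.trans (t.symm h2) h)
        simp [h1, h2, h3, ind]
      · by_cases h3 : t u z <;> simp [h1, h2, h3, ind]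
  rw [Finset.sum_add_distrib, Finset.sum_add_distrib, hx, hy, hz, card_V] at hle
  have : (0 : ℝ) < 2 ^ n := by positivity
  linarith

/-! ### The colorings by one coordinate -/

/-- The coordinate number `j`. -/
def co : (n j : ℕ) → V n → Bool
  | 0, _, _ => false
  | _ + 1, 0, x => x.1
  | n + 1, j + 1, x => co n j x.2

lemma lev_co (n : ℕ) : ∀ j, j < n → Lev n j (co n j) := by
  induction n with
  | zero => intro j hj; omega
  | succ n ih =>
    intro j hj
    cases j with
    | zero => exact ⟨false, fun b x => by simp [co]⟩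
    | succ j => exact fun b => ih j (by omega)

/-- Every function of level `j` is the `j`-th coordinate after an automorphism. -/
lemma lev_auto (n : ℕ) : ∀ j f, Lev n j f → ∃ φ : G n ≃g G n, ∀ x, co n j (φ x) = f x := by
  induction n with
  | zero => intro j f h; exact h.elim
  | succ n ih =>
    intro j f h
    cases j with
    | zero =>
      obtain ⟨c, hc⟩ := h
      refine ⟨⟨⟨fun x => (xor x.1 c, x.2), fun x => (xor x.1 c, x.2), ?_, ?_⟩, ?_⟩, ?_⟩
      · rintro ⟨b, x⟩
        change ((xor (xor b c) c, x) : Bool × V n) = (b, x)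
        cases b <;> cases c <;> rfl
      · rintro ⟨b, x⟩
        change ((xor (xor b c) c, x) : Bool × V n) = (b, x)
        cases b <;> cases c <;> rfl
      · rintro ⟨b, x⟩ ⟨b', x'⟩
        change (G (n + 1)).Adj (xor b c, x) (xor b' c, x') ↔ (G (n + 1)).Adj (b, x) (b', x')
        rw [adj_succ, adj_succ]
        simp
      · rintro ⟨b, x⟩
        exact (hc b x).symm
    | succ j =>
      obtain ⟨φ, hφ⟩ := Classical.axiom_of_choice (fun b => ih j _ (h b))
      refine ⟨⟨⟨fun x => (x.1, φ x.1 x.2), fun x => (x.1, (φ x.1).symm x.2), ?_, ?_⟩, ?_⟩, ?_⟩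
      · rintro ⟨b, x⟩
        exact congrArg (fun z => ((b, z) : Bool × V n)) ((φ b).symm_apply_apply x)
      · rintro ⟨b, x⟩
        exact congrArg (fun z => ((b, z) : Bool × V n)) ((φ b).apply_symm_apply x)
      · rintro ⟨b, x⟩ ⟨b', x'⟩
        change (G (n + 1)).Adj (b, φ b x) (b', φ b' x') ↔ (G (n + 1)).Adj (b, x) (b', x')
        rw [adj_succ, adj_succ]
        by_cases hb : b = b'
        · subst hb
          simp only [ne_eq, not_true_eq_false, false_or, true_and]
          rw [(φ b).map_adj_iff, (φ b).injective.eq_iff]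
        · simp [hb]
      · rintro ⟨b, x⟩
        exact hφ b x

/-- The partition by the `j`-th coordinate. -/
def P (n j : ℕ) : Setoid (V n) := Setoid.ker (co n j)

lemma P_iff (n j : ℕ) (x y : V n) : P n j x y ↔ co n j x = co n j y := Iff.rfl

lemma P_card (n j : ℕ) (hj : j < n) : Nat.card (Quotient (P n j)) = 2 := by
  have hs : Function.Surjective (co n j) := by
    obtain ⟨⟨x, hx⟩, ⟨y, hy⟩⟩ := lev_vals n j _ (lev_co n j hj)
    intro b
    cases b
    · exact ⟨y, hy⟩
    · exact ⟨x, hx⟩
  have := Nat.card_congr (Setoid.quotientKerEquivOfSurjective (co n j) hs)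
  rw [P, this]
  simp

lemma P_fat (n j : ℕ) (hj : j < n) : IsFAT (G n) (P n j) := by
  classical
  have hn : ∃ m, n = m + 1 := ⟨n - 1, by omega⟩
  have hd : 0 < d n := by
    obtain ⟨m, rfl⟩ := hn
    exact lt_of_lt_of_le (by positivity) (d_pos m)
  have h2 := two_aa n j hj
  have hb := mu_bounds n j hj
  -- the class of a vertex
  have hcl : ∀ v w : V n, (e (G n) v {u | P n j u w} : ℝ)
      = aa n j + mu n j * ind (decide (P n j v w)) := by
    intro v w
    rw [e_eq]
    have hl : Lev n j (fun u => decide (P n j u w)) := by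
      cases hw : co n j w
      · have : (fun u => decide (P n j u w)) = fun u => !co n j u := by
          funext u
          have h3 : P n j u w ↔ co n j u = false := by rw [P_iff, hw]
          cases h4 : co n j u <;> simp [h3, h4]
        rw [this]
        exact lev_not n j _ (lev_co n j hj)
      · have : (fun u => decide (P n j u w)) = fun u => co n j u := by
          funext u
          have h3 : P n j u w ↔ co n j u = true := by rw [P_iff, hw]
          cases h4 : co n j u <;> simp [h3, h4]
        rw [this]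
        exact lev_co n j hj
    exact A_lev n j _ hl v
  refine ⟨aa n j / d n, ?_, ?_, ?_, ?_⟩
  · apply div_nonneg _ hd.le
    linarith [hb.1]
  · rw [div_le_one hd]
    linarith [hb.2]
  · intro v w hvw
    rw [hcl, degree_eq, div_mul_cancel₀ _ hd.ne']
    simp [hvw, ind]
  · intro v
    have h3 : P n j v v := (P n j).refl v
    rw [hcl, degree_eq, P_card n j hj, sub_mul, mul_assoc, div_mul_cancel₀ _ hd.ne']
    simp only [h3, decide_true, ind_true]
    push_cast
    linarith

lemma P_irr (n j : ℕ) (hj : j < n) : IsIrreducible (G n) (P n j) := by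
  refine ⟨P_fat n j hj, ?_⟩
  intro t ht hle x y hxy
  by_contra hcon
  have hz : ∃ z, co n j z ≠ co n j x := by
    obtain ⟨⟨a, ha⟩, ⟨b, hb⟩⟩ := lev_vals n j _ (lev_co n j hj)
    cases hx : co n j x
    · exact ⟨a, by simp [ha]⟩
    · exact ⟨b, by simp [hb]⟩
  obtain ⟨z, hz⟩ := hz
  have h1 : ¬ t x z := fun h => hz (hle x z h).symm
  have h2 : ¬ t y z := fun h => hz ((hle y z h).symm.trans hxy.symm)
  exact no_three n t ht x y z hcon h1 h2

lemma A_comp (n : ℕ) (φ : G n ≃g G n) (f : V n → ℝ) (x : V n) :
    A n (fun y => f (φ y)) x = A n f (φ x) := by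
  classical
  unfold A
  rw [← Equiv.sum_comp φ.toEquiv (fun z => if (G n).Adj (φ x) z then f z else 0)]
  apply Finset.sum_congr rfl
  intro y _
  change (if (G n).Adj x y then f (φ y) else 0) = if (G n).Adj (φ x) (φ y) then f (φ y) else 0
  rw [φ.map_adj_iff]

lemma P_inj (n i j : ℕ) (hi : i < n) (hj : j < n) (h : Equivalent (G n) (P n i) (P n j)) :
    i = j := by
  obtain ⟨φ, hφ⟩ := h
  have hφ' : ∀ x y, co n i x = co n i y ↔ co n j (φ x) = co n j (φ y) := hφ
  obtain ⟨⟨a, ha⟩, ⟨b, hb⟩⟩ := lev_vals n i _ (lev_co n i hi)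
  have hl : Lev n i (fun x => co n j (φ x)) := by
    cases hc : co n j (φ a)
    · have : (fun x => co n j (φ x)) = fun x => !co n i x := by
        funext x
        have h1 := hφ' x a
        rw [ha, hc] at h1
        cases h2 : co n i x <;> cases h3 : co n j (φ x) <;> simp_all
      rw [this]
      exact lev_not n i _ (lev_co n i hi)
    · have : (fun x => co n j (φ x)) = fun x => co n i x := by
        funext x
        have h1 := hφ' x a
        rw [ha, hc] at h1
        cases h2 : co n i x <;> cases h3 : co n j (φ x) <;> simp_all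
      rw [this]
      exact lev_co n i hi
  have h1 : ∀ x, aa n i + mu n i * ind (co n j (φ x)) = aa n j + mu n j * ind (co n j (φ x)) := by
    intro x
    rw [← A_lev n i _ hl x, ← A_lev n j _ (lev_co n j hj) (φ x)]
    exact A_comp n φ (fun y => ind (co n j y)) x
  obtain ⟨hv1, hv2⟩ := lev_vals n i _ hl
  exact mu_inj n i j hi hj (coeff_unique (f := fun x => co n j (φ x)) hv1 hv2 h1).2

lemma irr_cases (n : ℕ) (hn : 1 ≤ n) (s : Setoid (V n)) (hs : IsIrreducible (G n) s) :
    ∃ j, j < n ∧ Equivalent (G n) s (P n j) := by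
  classical
  obtain ⟨hfat, hmax⟩ := hs
  have hnt : ∃ x y, ¬ s x y := by
    by_contra hcon
    push Not at hcon
    have h1 := hmax (P n 0) (P_fat n 0 hn) (fun x y _ => hcon x y)
    obtain ⟨⟨a, ha⟩, ⟨b, hb⟩⟩ := lev_vals n 0 _ (lev_co n 0 hn)
    have h2 : co n 0 a = co n 0 b := h1 a b (hcon a b)
    rw [ha, hb] at h2
    exact Bool.noConfusion h2
  obtain ⟨x₀, y₀, hxy⟩ := hnt
  obtain ⟨j, hj⟩ := fat_level n s hfat hxy
  obtain ⟨φ, hφ⟩ := lev_auto n j _ (hj x₀)
  refine ⟨j, lev_lt n j _ (hj x₀), φ, ?_⟩
  intro x y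
  rw [P_iff, hφ, hφ]
  constructor
  · intro h
    by_cases hx : s x x₀
    · have hy : s y x₀ := s.trans (s.symm h) hx
      simp [hx, hy]
    · have hy : ¬ s y x₀ := fun h' => hx (s.trans h h')
      simp [hx, hy]
  · intro h
    by_cases hx : s x x₀
    · have hy : s y x₀ := by simpa [hx] using h
      exact s.trans hx (s.symm hy)
    · have hy : ¬ s y x₀ := by simpa [hx] using h
      by_contra hcon
      exact no_three n s hfat x y x₀ hcon hx hy

lemma connected (n : ℕ) (hn : 1 ≤ n) : (G n).Connected := by
  obtain ⟨m, rfl⟩ : ∃ m, n = m + 1 := ⟨n - 1, by omega⟩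
  have hcross : ∀ (b c : Bool) (x y : V m), b ≠ c → (G (m + 1)).Reachable (b, x) (c, y) := by
    intro b c x y h
    have : (G (m + 1)).Adj (b, x) (c, y) := (adj_succ m b c x y).2 (Or.inl h)
    exact this.reachable
  have : Nonempty (V (m + 1)) := nonempty_V _
  refine SimpleGraph.Connected.mk ?_
  rintro ⟨b, x⟩ ⟨c, y⟩
  by_cases h : b = c
  · subst h
    exact (hcross b (!b) x x (by simp)).trans (hcross (!b) b x y (by simp))
  · exact hcross b c x y h

/-- For every positive integer `b` there is a finite connected simple graph with exactly `b`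
irreducible FAT colorings. -/
theorem result (b : ℕ) (hb : 1 ≤ b) :
    ∃ (W : Type) (_ : Finite W) (H : SimpleGraph W), H.Connected ∧ HasExactly H b := by
  refine ⟨V b, inferInstance, G b, connected b hb, fun i => P b i, ?_, ?_, ?_⟩
  · intro i
    exact P_irr b i i.2
  · intro i j h
    exact Fin.ext (P_inj b i j i.2 j.2 h)
  · intro s hs
    obtain ⟨j, hj, h⟩ := irr_cases b hb s hs
    exact ⟨⟨j, hj⟩, h⟩

end Pool.Agent.Results.MP_48b99b_co.PrescribedNumber
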